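import Mathlib

/-! Number theory for near-uniform classes of degree divisible by three on ten or eleven points. -/

namespace Pool.Agent.TH718.UG

theorem res10 : ∀ r ∈ Finset.range 90, ∀ Z ∈ Finset.Icc 1 25, (r ^ 2 + Z) % 90 = 0 →
    Z ≤ (r % 10) * (10 - r % 10) → Z = 9 ∨ Z = 11 ∨ Z = 14 ∨ Z = 5 := by
  decide +kernel

theorem res11 : ∀ r ∈ Finset.range 99, ∀ Z ∈ Finset.Icc 1 30, (r ^ 2 + Z) % 99 = 0 →
    Z ≤ (r % 11) * (11 - r % 11) → Z = 18 ∨ Z = 2 ∨ Z = 17 ∨ Z = 8 := by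
  decide +kernel

theorem no121 : ∀ x ∈ Finset.range 121, ∀ e ∈ Finset.range 121,
    (x ^ 2 + 11) % 121 ≠ (90 * e ^ 2) % 121 := by
  decide +kernel

theorem no49 : ∀ x ∈ Finset.range 49, ∀ e ∈ Finset.range 49,
    (x ^ 2 + 14) % 49 ≠ (90 * e ^ 2) % 49 := by
  decide +kernel

theorem no25 : ∀ x ∈ Finset.range 25, ∀ e ∈ Finset.range 25,
    (x ^ 2 + 5) % 25 ≠ (90 * e ^ 2) % 25 := by
  decide +kernel

theorem no289 : ∀ x ∈ Finset.range 289, ∀ e ∈ Finset.range 289,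
    (x ^ 2 + 17) % 289 ≠ (99 * e ^ 2) % 289 := by
  decide +kernel

theorem no_of_mod {M Z c : ℕ} (hM : 0 < M) (h : ∀ x ∈ Finset.range M, ∀ e ∈ Finset.range M,
    (x ^ 2 + Z) % M ≠ (c * e ^ 2) % M) (x e : ℕ) : x ^ 2 + Z ≠ c * e ^ 2 := by
  intro heq
  apply h (x % M) (Finset.mem_range.2 (Nat.mod_lt _ hM)) (e % M)
    (Finset.mem_range.2 (Nat.mod_lt _ hM))
  have h1 : x ^ 2 + Z ≡ c * e ^ 2 [MOD M] := by rw [heq]
  have h2 : (x % M) ^ 2 + Z ≡ x ^ 2 + Z [MOD M] :=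
    Nat.ModEq.add_right _ ((Nat.mod_modEq x M).pow 2)
  have h3 : c * (e % M) ^ 2 ≡ c * e ^ 2 [MOD M] :=
    Nat.ModEq.mul_left _ ((Nat.mod_modEq e M).pow 2)
  exact (h2.trans h1).trans h3.symm

theorem pell3 : ∀ x y : ℕ, 11 * x ^ 2 = y ^ 2 + 2 → x % 3 ≠ 0 := by
  intro x
  induction x using Nat.strong_induction_on with
  | _ x ih =>
    intro y h
    rcases lt_or_ge x 5 with hx | hx
    · interval_cases x
      · omega
      · norm_num
      · norm_num
      · exfalso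
        have h1 : y < 10 := by
          by_contra hcon
          have : 10 ^ 2 ≤ y ^ 2 := Nat.pow_le_pow_left (by omega) 2
          omega
        interval_cases y <;> omega
      · norm_num
    · have hy1 : 3 * x < y := by
        by_contra hcon
        have : y ^ 2 ≤ (3 * x) ^ 2 := Nat.pow_le_pow_left (by omega) 2
        nlinarith
      have hy2 : 3 * y < 10 * x := by
        by_contra hcon
        have : (10 * x) ^ 2 ≤ (3 * y) ^ 2 := Nat.pow_le_pow_left (by omega) 2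
        nlinarith
      have hy3 : 33 * x < 10 * y := by
        by_contra hcon
        have : (10 * y) ^ 2 ≤ (33 * x) ^ 2 := Nat.pow_le_pow_left (by omega) 2
        nlinarith
      obtain ⟨x', hx'⟩ := Nat.exists_eq_add_of_lt hy2
      obtain ⟨y', hy'⟩ := Nat.exists_eq_add_of_lt hy3
      have h1 : 11 * (x' + 1) ^ 2 = (y' + 1) ^ 2 + 2 := by
        zify at h hx' hy' ⊢
        have e1 : (x' : ℤ) + 1 = 10 * x - 3 * y := by linarith
        have e2 : (y' : ℤ) + 1 = 10 * y - 33 * x := by linarith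
        rw [e1, e2]
        linear_combination h
      have h2 := ih (x' + 1) (by omega) (y' + 1) h1
      omega

theorem num10 {k a e : ℕ} (hk : 1 ≤ k) (ha : a ≤ 10) (h1 : (10 * k + a) ^ 2 < 10 * (3 * e) ^ 2)
    (h2 : (3 * e) ^ 2 ≤ 10 * k ^ 2 + (2 * k + 1) * a) :
    ∃ v, 10 * k + a = 3 * v ∧ 10 * e ^ 2 = v ^ 2 + 1 ∧ 2 ≤ e := by
  obtain ⟨W, hW⟩ : ∃ W, W = 10 * k + a := ⟨_, rfl⟩
  rw [← hW] at h1 ⊢
  obtain ⟨Z, hZ⟩ := Nat.exists_eq_add_of_le h1.le
  have hZ1 : 1 ≤ Z := by omega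
  obtain ⟨b, hb⟩ := Nat.exists_eq_add_of_le ha
  have hZ2 : Z ≤ a * b := by
    have h3 : 10 * (10 * k ^ 2 + (2 * k + 1) * a) = W ^ 2 + a * b := by
      rw [hW]
      have : (10 : ℕ) * ((2 * k + 1) * a) = 20 * k * a + a * (a + b) := by rw [← hb]; ring
      rw [mul_add, this]; ring
    have h4 : 10 * (3 * e) ^ 2 ≤ 10 * (10 * k ^ 2 + (2 * k + 1) * a) := Nat.mul_le_mul_left _ h2
    omega
  have hab : a * b ≤ 25 := by
    have hb' : b = 10 - a := by omega
    subst hb'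
    interval_cases a <;> norm_num
  have h90 : W ^ 2 + Z = 90 * e ^ 2 := by rw [← hZ]; ring
  have hr : W % 10 = a % 10 := by rw [hW]; omega
  have hc : Z ≤ (W % 90 % 10) * (10 - W % 90 % 10) := by
    have : W % 90 % 10 = a % 10 := by rw [← hr]; omega
    rw [this]
    rcases Nat.lt_or_ge a 10 with h | h
    · rw [Nat.mod_eq_of_lt h]
      have : 10 - a = b := by omega
      rw [this]; exact hZ2
    · have : b = 0 := by omega
      rw [this, mul_zero] at hZ2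
      omega
  have hmod : ((W % 90) ^ 2 + Z) % 90 = 0 := by
    have h3 : (W % 90) ^ 2 + Z ≡ W ^ 2 + Z [MOD 90] :=
      Nat.ModEq.add_right _ ((Nat.mod_modEq W 90).pow 2)
    have h4 : ((W % 90) ^ 2 + Z) % 90 = (W ^ 2 + Z) % 90 := h3
    rw [h4, h90]
    omega
  rcases res10 (W % 90) (Finset.mem_range.2 (Nat.mod_lt _ (by norm_num))) Z
    (Finset.mem_Icc.2 ⟨hZ1, hZ2.trans hab⟩) hmod hc with rfl | rfl | rfl | rfl
  · -- 9
    have h3W : 3 ∣ W := by
      have h5 : 3 ∣ W ^ 2 := by omega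
      exact Nat.Prime.dvd_of_dvd_pow (by norm_num) h5
    obtain ⟨v, hv⟩ := h3W
    refine ⟨v, hv, ?_, ?_⟩
    · rw [hv] at h90
      nlinarith
    · by_contra hcon
      have he : e = 0 ∨ e = 1 := by omega
      rcases he with rfl | rfl
      · omega
      · have : W ^ 2 = 81 := by omega
        have h5 : W ≤ 9 := by
          by_contra hc2
          have : 10 ^ 2 ≤ W ^ 2 := Nat.pow_le_pow_left (by omega) 2
          omega
        omega
  · exact absurd h90 (no_of_mod (by norm_num) no121 W e)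
  · exact absurd h90 (no_of_mod (by norm_num) no49 W e)
  · exact absurd h90 (no_of_mod (by norm_num) no25 W e)

theorem num11 {k a e : ℕ} (hk : 1 ≤ k) (ha : a ≤ 11) (h1 : (11 * k + a) ^ 2 < 11 * (3 * e) ^ 2)
    (h2 : (3 * e) ^ 2 ≤ 11 * k ^ 2 + (2 * k + 1) * a) :
    ∃ v, 11 * k + a = 3 * v ∧ 11 * e ^ 2 = v ^ 2 + 2 ∧ 10 ≤ e := by
  obtain ⟨W, hW⟩ : ∃ W, W = 11 * k + a := ⟨_, rfl⟩
  rw [← hW] at h1 ⊢
  obtain ⟨Z, hZ⟩ := Nat.exists_eq_add_of_le h1.le
  have hZ1 : 1 ≤ Z := by omega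
  obtain ⟨b, hb⟩ := Nat.exists_eq_add_of_le ha
  have hZ2 : Z ≤ a * b := by
    have h3 : 11 * (11 * k ^ 2 + (2 * k + 1) * a) = W ^ 2 + a * b := by
      rw [hW]
      have : (11 : ℕ) * ((2 * k + 1) * a) = 22 * k * a + a * (a + b) := by rw [← hb]; ring
      rw [mul_add, this]; ring
    have h4 : 11 * (3 * e) ^ 2 ≤ 11 * (11 * k ^ 2 + (2 * k + 1) * a) := Nat.mul_le_mul_left _ h2
    omega
  have hab : a * b ≤ 30 := by
    have hb' : b = 11 - a := by omega
    subst hb'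
    interval_cases a <;> norm_num
  have h99 : W ^ 2 + Z = 99 * e ^ 2 := by rw [← hZ]; ring
  have hr : W % 11 = a % 11 := by rw [hW]; omega
  have hc : Z ≤ (W % 99 % 11) * (11 - W % 99 % 11) := by
    have : W % 99 % 11 = a % 11 := by rw [← hr]; omega
    rw [this]
    rcases Nat.lt_or_ge a 11 with h | h
    · rw [Nat.mod_eq_of_lt h]
      have : 11 - a = b := by omega
      rw [this]; exact hZ2
    · have : b = 0 := by omega
      rw [this, mul_zero] at hZ2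
      omega
  have hmod : ((W % 99) ^ 2 + Z) % 99 = 0 := by
    have h3 : (W % 99) ^ 2 + Z ≡ W ^ 2 + Z [MOD 99] :=
      Nat.ModEq.add_right _ ((Nat.mod_modEq W 99).pow 2)
    have h4 : ((W % 99) ^ 2 + Z) % 99 = (W ^ 2 + Z) % 99 := h3
    rw [h4, h99]
    omega
  rcases res11 (W % 99) (Finset.mem_range.2 (Nat.mod_lt _ (by norm_num))) Z
    (Finset.mem_Icc.2 ⟨hZ1, hZ2.trans hab⟩) hmod hc with rfl | rfl | rfl | rfl
  · -- 18
    have h3W : 3 ∣ W := by
      have h5 : 3 ∣ W ^ 2 := by omega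
      exact Nat.Prime.dvd_of_dvd_pow (by norm_num) h5
    obtain ⟨v, hv⟩ := h3W
    have hv2 : 11 * e ^ 2 = v ^ 2 + 2 := by
      rw [hv] at h99
      nlinarith
    refine ⟨v, hv, hv2, ?_⟩
    by_contra hcon
    have he : e < 10 := by omega
    have hv3 : v < 34 := by
      by_contra hc2
      have h5 : 34 ^ 2 ≤ v ^ 2 := Nat.pow_le_pow_left (by omega) 2
      have h6 : e ^ 2 ≤ 9 ^ 2 := Nat.pow_le_pow_left (by omega) 2
      omega
    have hW12 : 4 ≤ v := by omega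
    clear h1 h2 hZ hmod hc h99 hW hr
    interval_cases e <;> interval_cases v <;> omega
  · -- 2
    exfalso
    exact pell3 (3 * e) W (by rw [← hZ]) (by omega)
  · exact absurd h99 (no_of_mod (by norm_num) no289 W e)
  · -- 8
    exfalso
    have he2 : e % 2 = 0 := by
      by_contra hodd
      have h5 : e % 8 = 1 ∨ e % 8 = 3 ∨ e % 8 = 5 ∨ e % 8 = 7 := by omega
      have h6 : e ^ 2 % 8 = 1 := by
        rw [Nat.pow_mod]
        rcases h5 with h | h | h | h <;> rw [h]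
      have h7 : W ^ 2 % 8 = 0 ∨ W ^ 2 % 8 = 1 ∨ W ^ 2 % 8 = 4 := by
        have h8 : W % 8 < 8 := Nat.mod_lt _ (by norm_num)
        rw [Nat.pow_mod]
        interval_cases W % 8 <;> simp
      omega
    obtain ⟨e', rfl⟩ : ∃ e', e = 2 * e' := ⟨e / 2, by omega⟩
    have hW2 : W % 2 = 0 := by
      by_contra hodd
      have h5 : W ^ 2 % 2 = 1 := by
        rw [Nat.pow_mod, show W % 2 = 1 by omega]
      have h6 : 99 * (2 * e') ^ 2 = 2 * (198 * e' ^ 2) := by ring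
      omega
    obtain ⟨W', rfl⟩ : ∃ W', W = 2 * W' := ⟨W / 2, by omega⟩
    exact pell3 (3 * e') W' (by nlinarith) (by omega)

end Pool.Agent.TH718.UG
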