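import Mathlib

/-! The rows for the isotropic near-uniform classes of degree divisible by three. -/

namespace Pool.Agent.TH718.UG

open Finset

theorem pell_row {n z e v : ℕ} (hz : z = 1 ∨ (z = 2 ∧ 3 * e + 3 ≤ v)) (he : 2 ≤ e)
    (hv : n * e ^ 2 = v ^ 2 + z) (hve : 3 * e < v) {s : ℝ} (hs1 : s * e < v)
    (hs2 : (v : ℝ) < s * e + 1 / (4 * v * e)) (j : ℕ) (B : Finset ℤ)
    (hB : ∀ u ∈ B, ∃ σ : ℕ, (u : ℝ) ≤ s * ((3 * e : ℕ) : ℝ) - 3 * s * (j + σ) ∧
      (s - 3) * (((3 * e : ℕ) : ℝ) - 3 * σ) ≤ u)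
    (hne : B.Nonempty) : (B.card : ℤ) ≤ 3 * v - n * j := by
  classical
  have heR : (2 : ℝ) ≤ e := by exact_mod_cast he
  have hvR : 3 * (e : ℝ) + 1 ≤ v := by exact_mod_cast hve
  have he0 : (0 : ℝ) < e := by linarith
  have hv0 : (0 : ℝ) < v := by linarith
  obtain ⟨η, hη⟩ : ∃ η : ℝ, η = v - s * e := ⟨_, rfl⟩
  have hη0 : 0 < η := by linarith
  have hη1 : η < 1 / (4 * v * e) := by linarith
  have hη2 : η * (4 * v * e) < 1 := by
    rwa [lt_div_iff₀ (by positivity)] at hη1
  have hη3 : η < 1 := by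
    have h1 : 1 ≤ 4 * (v : ℝ) * e := by nlinarith
    nlinarith
  have hse : s * e = v - η := by rw [hη]; ring
  have hs3 : 3 < s := by
    by_contra hcon
    rw [not_lt] at hcon
    have : s * e ≤ 3 * e := mul_le_mul_of_nonneg_right hcon he0.le
    linarith
  have hs0 : 0 < s := by linarith
  have hs3' : 0 < s - 3 := by linarith
  -- the basic facts for one element
  have key : ∀ u ∈ B, ∃ q : ℤ, (j : ℤ) ≤ q ∧ q ≤ e ∧ (u : ℝ) ≤ 3 * s * (q - j) ∧
      3 * (s - 3) * q ≤ u ∧ (j : ℤ) < e := by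
    intro u hu
    obtain ⟨σ, h1, h2⟩ := hB u hu
    push_cast at h1 h2
    obtain ⟨x, hx⟩ : ∃ x : ℝ, x = (e : ℝ) - σ := ⟨_, rfl⟩
    have h1' : (u : ℝ) ≤ 3 * s * (x - j) := by rw [hx]; linarith
    have h2' : 3 * (s - 3) * x ≤ u := by rw [hx]; linarith
    have h3 : s * j ≤ 3 * x := by linarith
    have h4 : (3 : ℝ) * j ≤ s * j := mul_le_mul_of_nonneg_right hs3.le (Nat.cast_nonneg j)
    have h5 : (j : ℝ) ≤ x := by linarith
    have hq : (((e : ℤ) - σ : ℤ) : ℝ) = x := by rw [hx]; push_cast; ring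
    refine ⟨(e : ℤ) - σ, ?_, by omega, by rw [hq]; exact h1', by rw [hq]; exact h2', ?_⟩
    · have : ((j : ℤ) : ℝ) ≤ (((e : ℤ) - σ : ℤ) : ℝ) := by rw [hq]; exact_mod_cast h5
      exact_mod_cast this
    · rcases Nat.eq_zero_or_pos j with hj | hj
      · subst hj; push_cast; exact_mod_cast (by omega : 0 < e)
      · have hjR : (0 : ℝ) < j := by exact_mod_cast hj
        have h6 : (3 : ℝ) * j < s * j := mul_lt_mul_of_pos_right hs3 hjR
        have h7 : x ≤ e := by
          rw [hx]
          have : (0 : ℝ) ≤ σ := Nat.cast_nonneg σ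
          linarith
        have h8 : (j : ℝ) < e := by linarith
        exact_mod_cast h8
  have hje : (j : ℤ) < e := by
    obtain ⟨u, hu⟩ := hne
    obtain ⟨q, -, -, -, -, h⟩ := key u hu
    exact h
  have hjeR : (j : ℝ) + 1 ≤ e := by exact_mod_cast hje
  have hj0 : (0 : ℝ) ≤ j := Nat.cast_nonneg j
  -- integral upper and lower bounds
  have hupper : ∀ u ∈ B, (e : ℤ) * u < 3 * v * (e - j) := by
    intro u hu
    obtain ⟨q, g1, g2, g3, g4, -⟩ := key u hu
    have g2R : (q : ℝ) ≤ e := by exact_mod_cast g2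
    have h1 : (u : ℝ) ≤ 3 * s * (e - j) := by
      refine g3.trans ?_
      apply mul_le_mul_of_nonneg_left _ (by positivity)
      linarith
    have h2 : (e : ℝ) * u ≤ e * (3 * s * (e - j)) := mul_le_mul_of_nonneg_left h1 he0.le
    have h3 : (e : ℝ) * (3 * s * (e - j)) = 3 * (v - η) * (e - j) := by rw [← hse]; ring
    have h4 : 0 < 3 * η * ((e : ℝ) - j) := by
      apply mul_pos (by linarith); linarith
    have h5 : (e : ℝ) * u < 3 * v * (e - j) := by
      have e1 : 3 * ((v : ℝ) - η) * (e - j) = 3 * v * (e - j) - 3 * η * (e - j) := by ring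
      linarith
    have h6 : (((e : ℤ) * u : ℤ) : ℝ) < ((3 * v * (e - j) : ℤ) : ℝ) := by push_cast; exact h5
    exact_mod_cast h6
  have hlower : ∀ u ∈ B, (v : ℤ) * (v - 3 * e) * j ≤ e ^ 2 * u := by
    intro u hu
    obtain ⟨q, g1, g2, g3, g4, -⟩ := key u hu
    have h1 : (s - 3) * u ≤ (s - 3) * (3 * s * (q - j)) := mul_le_mul_of_nonneg_left g3 hs3'.le
    have h2 : s * (3 * (s - 3) * q) ≤ s * u := mul_le_mul_of_nonneg_left g4 hs0.le
    have h3 : s * (s - 3) * j ≤ u := by
      have e1 : (s - 3) * (3 * s * ((q : ℝ) - j)) = s * (3 * (s - 3) * q) - 3 * (s * (s - 3) * j) := by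
        ring
      rw [e1] at h1
      linarith
    have h4 : (e : ℝ) ^ 2 * (s * (s - 3) * j) ≤ e ^ 2 * u := mul_le_mul_of_nonneg_left h3 (by positivity)
    have e2 : (e : ℝ) ^ 2 * (s * (s - 3) * j) = (s * e) * (s * e - 3 * e) * j := by ring
    rw [e2, hse] at h4
    have e3 : ((v : ℝ) - η) * (v - η - 3 * e) * j =
        v * (v - 3 * e) * j - η * (2 * v) * j + η * (3 * e) * j + η ^ 2 * j := by ring
    rw [e3] at h4
    have h5 : 0 ≤ η * (3 * e) * j := by positivity
    have h6 : 0 ≤ η ^ 2 * j := by positivity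
    have h7 : η * (2 * v) * j ≤ η * (2 * v) * e := by
      apply mul_le_mul_of_nonneg_left _ (by positivity); linarith
    have h8 : η * (2 * v) * e < 1 := by
      have : η * (2 * v) * e = η * (4 * v * e) / 2 := by ring
      linarith
    have h9 : ((v * (v - 3 * e) * j : ℤ) : ℝ) < ((e ^ 2 * u + 1 : ℤ) : ℝ) := by
      push_cast
      linarith
    have h10 : (v : ℤ) * (v - 3 * e) * j < e ^ 2 * u + 1 := by exact_mod_cast h9
    omega
  -- division
  obtain ⟨G, r, hGr, hr0, hre⟩ : ∃ G r : ℤ, 3 * (v : ℤ) * j = G * e + r ∧ 0 ≤ r ∧ r < e := by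
    refine ⟨3 * v * j / e, 3 * v * j % e, ?_, Int.emod_nonneg _ (by omega), Int.emod_lt_of_pos _ (by omega)⟩
    have := Int.mul_ediv_add_emod (3 * (v : ℤ) * j) e
    linarith
  have heZ : (2 : ℤ) ≤ e := by exact_mod_cast he
  have hvZ : (n : ℤ) * e ^ 2 = v ^ 2 + z := by exact_mod_cast hv
  have hup : ∀ u ∈ B, u ≤ 3 * v - G - 1 := by
    intro u hu
    have h1 := hupper u hu
    have h2 : (e : ℤ) * u < e * (3 * v - G) := by
      have : (3 : ℤ) * v * (e - j) = 3 * v * e - (G * e + r) := by rw [← hGr]; ring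
      rw [this] at h1
      nlinarith
    have h3 := lt_of_mul_lt_mul_left h2 (by omega)
    omega
  -- the lower bound, up to one
  have hlow1 : ∀ u ∈ B, (e : ℤ) ^ 2 * (n * j - u - G) ≤ z * j + e * r := by
    intro u hu
    have h1 := hlower u hu
    have h2 : (v : ℤ) * (v - 3 * e) * j = (n * e ^ 2 - z) * j - e * (G * e + r) := by
      rw [← hGr, hvZ]; ring
    rw [h2] at h1
    nlinarith
  have hlow : ∀ u ∈ B, (n : ℤ) * j - G ≤ u := by
    intro u hu
    by_contra hcon
    rw [not_le] at hcon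
    have h1 := hlow1 u hu
    have hpos : 1 ≤ (n : ℤ) * j - u - G := by omega
    rcases hz with rfl | ⟨rfl, hv3⟩
    · have h2 : (e : ℤ) ^ 2 * 1 ≤ e ^ 2 * (n * j - u - G) := mul_le_mul_of_nonneg_left hpos (by positivity)
      have h3 : (e : ℤ) * r ≤ e * (e - 1) := mul_le_mul_of_nonneg_left (by omega) (by omega)
      push_cast at h1
      nlinarith
    · -- only one value
      have hone : (n : ℤ) * j - u - G = 1 := by
        by_contra hne1
        have hpos2 : 2 ≤ (n : ℤ) * j - u - G := by omega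
        have h2 : (e : ℤ) ^ 2 * 2 ≤ e ^ 2 * (n * j - u - G) := mul_le_mul_of_nonneg_left hpos2 (by positivity)
        have h3 : (e : ℤ) * r ≤ e * (e - 1) := mul_le_mul_of_nonneg_left (by omega) (by omega)
        push_cast at h1
        nlinarith
      rw [hone, mul_one] at h1
      push_cast at h1
      have hr : r = e - 1 := by
        by_contra hne1
        have h3 : (e : ℤ) * r ≤ e * (e - 2) := mul_le_mul_of_nonneg_left (by omega) (by omega)
        nlinarith
      have he2j : (e : ℤ) ≤ 2 * j := by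
        rw [hr] at h1
        nlinarith
      obtain ⟨q, g1, g2, g3, g4, -⟩ := key u hu
      -- (ii)
      have g1R : (j : ℝ) ≤ q := by exact_mod_cast g1
      have g2R : (q : ℝ) ≤ e := by exact_mod_cast g2
      have hii : (e : ℤ) * u ≤ 3 * v * (q - j) := by
        have k1 : (e : ℝ) * u ≤ e * (3 * s * (q - j)) := mul_le_mul_of_nonneg_left g3 he0.le
        have k2 : (e : ℝ) * (3 * s * (q - j)) = 3 * (s * e) * (q - j) := by ring
        have k3 : 3 * (s * e) * ((q : ℝ) - j) ≤ 3 * v * (q - j) := by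
          apply mul_le_mul_of_nonneg_right _ (by linarith)
          linarith
        have k4 : (((e : ℤ) * u : ℤ) : ℝ) ≤ ((3 * v * (q - j) : ℤ) : ℝ) := by push_cast; linarith
        exact_mod_cast k4
      have hi : 3 * ((v : ℤ) - 3 * e) * q ≤ e * u := by
        have k1 : (e : ℝ) * (3 * (s - 3) * q) ≤ e * u := mul_le_mul_of_nonneg_left g4 he0.le
        have k2 : (e : ℝ) * (3 * (s - 3) * q) = 3 * (v - 3 * e) * q - 3 * η * q := by
          rw [hη]; ring
        have k3 : 3 * η * q ≤ 3 * η * e := by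
          apply mul_le_mul_of_nonneg_left g2R (by positivity)
        have k4 : 3 * η * e < 1 := by
          have : η * (4 * v * e) = (η * e) * (4 * v) := by ring
          rw [this] at hη2
          have k5 : 3 * (η * e) ≤ (η * e) * (4 * v) := by
            have : 0 ≤ η * e := by positivity
            nlinarith
          linarith
        have k6 : ((3 * ((v : ℤ) - 3 * e) * q : ℤ) : ℝ) < ((e * u + 1 : ℤ) : ℝ) := by
          push_cast
          linarith
        have k7 : 3 * ((v : ℤ) - 3 * e) * q < e * u + 1 := by exact_mod_cast k6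
        omega
      have hu0 : u = n * j - G - 1 := by omega
      have heu : (e : ℤ) * u = n * j * e - 3 * v * j - 1 := by
        rw [hu0, hGr, hr]; ring
      rw [heu] at hi hii
      obtain ⟨N, hN⟩ : ∃ N : ℤ, N = 3 * q * e - v * j := ⟨_, rfl⟩
      push_cast at hvZ
      have hN1 : 2 * (j : ℤ) - e ≤ v * N := by
        have k1 : (e : ℤ) * (n * j * e - 3 * v * j - 1) ≤ e * (3 * v * (q - j)) :=
          mul_le_mul_of_nonneg_left hii (by omega)
        have k2 : (e : ℤ) * (n * j * e - 3 * v * j - 1) = (n * e ^ 2) * j - 3 * v * j * e - e := by ring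
        rw [k2, hvZ] at k1
        rw [hN]
        nlinarith
      have hN2 : ((v : ℤ) - 3 * e) * N ≤ 2 * j - e := by
        have k1 : (e : ℤ) * (3 * ((v : ℤ) - 3 * e) * q) ≤ e * (n * j * e - 3 * v * j - 1) :=
          mul_le_mul_of_nonneg_left hi (by omega)
        have k2 : (e : ℤ) * (n * j * e - 3 * v * j - 1) = (n * e ^ 2) * j - 3 * v * j * e - e := by ring
        rw [k2, hvZ] at k1
        rw [hN]
        nlinarith
      have hN3 : 3 * N = e * (9 * q - G - 1) + 1 := by
        rw [hN]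
        have : 3 * (3 * q * (e : ℤ) - v * j) = 9 * q * e - 3 * v * j := by ring
        rw [this, hGr, hr]; ring
      have hvpos : (0 : ℤ) < v := by omega
      have hN0 : 0 ≤ N := by
        by_contra hc
        rw [not_le] at hc
        have : (v : ℤ) * N < 0 := mul_neg_of_pos_of_neg hvpos hc
        omega
      obtain ⟨t, ht⟩ : ∃ t : ℤ, t = 9 * q - G - 1 := ⟨_, rfl⟩
      rw [← ht] at hN3
      have ht1 : 1 ≤ t := by
        by_contra hc
        rw [not_le] at hc
        rcases (show t = 0 ∨ t ≤ -1 by omega) with h0 | h0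
        · rw [h0, mul_zero] at hN3; omega
        · have : (e : ℤ) * t ≤ e * (-1) := mul_le_mul_of_nonneg_left h0 (by omega)
          omega
      have hN4 : (e : ℤ) + 1 ≤ 3 * N := by
        have : (e : ℤ) * 1 ≤ e * t := mul_le_mul_of_nonneg_left ht1 (by omega)
        omega
      have hv3' : (3 : ℤ) ≤ v - 3 * e := by
        have : ((3 * e + 3 : ℕ) : ℤ) ≤ v := by exact_mod_cast hv3
        push_cast at this
        omega
      have k1 : (3 : ℤ) * (3 * N) ≤ (v - 3 * e) * (3 * N) :=
        mul_le_mul_of_nonneg_right hv3' (by omega)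
      have k2 : ((v : ℤ) - 3 * e) * (3 * N) = 3 * (((v : ℤ) - 3 * e) * N) := by ring
      rw [k2] at k1
      omega
  have hsub : B ⊆ Icc ((n : ℤ) * j - G) (3 * v - G - 1) := by
    intro u hu
    rw [Finset.mem_Icc]
    exact ⟨hlow u hu, hup u hu⟩
  obtain ⟨u, hu⟩ := hne
  have h4 := Finset.mem_Icc.1 (hsub hu)
  have h5 := card_le_card hsub
  rw [Int.card_Icc] at h5
  omega

end Pool.Agent.TH718.UG
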