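import Pool.Agent.TH718.UG.Near
import Pool.Agent.TH718.UG.PellRow
import Pool.Agent.TH718.UG.PellNum

/-! Near-uniform multiplicities: ten and eleven points, degree divisible by three. -/

namespace Pool.Agent.TH718.UG

open Finset Pool.Agent.TH176.Nag Pool.Agent.H248R5

theorem Emp_pell {ι : Type} [Fintype ι] {w : ι → ℕ} {n z e v : ℕ}
    (hz : z = 1 ∨ (z = 2 ∧ 3 * e + 3 ≤ v)) (he : 2 ≤ e) (hv : n * e ^ 2 = v ^ 2 + z)
    (hve : 3 * e < v) (hc : Fintype.card ι = n) (hW : ∑ i, w i = 3 * v) :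
    Emp w {m : ℤ × ℤ | 0 ≤ m.1 ∧ 0 ≤ m.2 ∧ m.1 + m.2 ≤ ((3 * e : ℕ) : ℤ)} := by
  classical
  have heR : (2 : ℝ) ≤ e := by exact_mod_cast he
  have hvR : 3 * (e : ℝ) < v := by exact_mod_cast hve
  have he0 : (0 : ℝ) < e := by linarith
  have hv0 : (0 : ℝ) < v := by linarith
  have hlt : (v : ℝ) / e - 1 / (4 * v * e ^ 2) < v / e := by
    have : 0 < 1 / (4 * (v : ℝ) * e ^ 2) := by positivity
    linarith
  obtain ⟨s, hirr, h1, h2⟩ := exists_irrational_btwn hlt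
  have hs1 : s * e < v := by rwa [lt_div_iff₀ he0] at h2
  have hs2 : (v : ℝ) < s * e + 1 / (4 * v * e) := by
    have h3 := mul_lt_mul_of_pos_right h1 he0
    have e1 : ((v : ℝ) / e - 1 / (4 * v * e ^ 2)) * e = v - 1 / (4 * v * e) := by
      field_simp
    rw [e1] at h3
    linarith
  have hs0 : 0 < s := by
    have h3 : 1 / (4 * (v : ℝ) * e ^ 2) < v / e := by
      rw [div_lt_div_iff₀ (by positivity) he0]
      have : (1 : ℝ) ≤ v := by linarith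
      nlinarith [mul_pos hv0 he0, mul_pos (mul_pos hv0 he0) he0]
    linarith
  refine Emp_of_rows hirr hs0 ?_
  intro j B hB
  rcases B.eq_empty_or_nonempty with rfl | hne
  · simp
  have h3 := pell_row hz he hv hve hs1 hs2 j B hB hne
  have h4 : ∑ i, w i ≤ ∑ i, (w i - j) + n * j := by
    have : n * j = ∑ _i : ι, j := by simp [hc]
    rw [this, ← sum_add_distrib]
    exact sum_le_sum fun i _ => by omega
  have h5 : ((∑ i, w i : ℕ) : ℤ) ≤ ((∑ i, (w i - j) : ℕ) : ℤ) + n * j := by exact_mod_cast h4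
  rw [hW] at h5
  push_cast at h5
  have h6 : (B.card : ℤ) ≤ ((∑ i, (w i - j) : ℕ) : ℤ) := by push_cast; linarith
  exact_mod_cast h6

/-- near-uniform multiplicities, `n ≥ 10` -/
theorem Van_near_all {n : ℕ} (hn : 10 ≤ n) {d : ℕ} (hd : 0 < d) {w : Fin n → ℕ}
    {k : ℕ} (hk : 1 ≤ k) (hw : ∀ i, w i = k ∨ w i = k + 1) (hpos : d ^ 2 ≤ ∑ i, w i ^ 2)
    (hex : ¬ (n = 10 ∧ k = 1 ∧ (d = 4 ∨ d = 5) ∧ ∑ i, w i ^ 2 = d ^ 2)) : Van w d := by
  classical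
  by_cases hdiv : 12 ≤ n ∨ ¬ 3 ∣ d
  · exact Van_near hn hd hdiv hk hw hpos hex
  push Not at hdiv
  obtain ⟨hn12, e, rfl⟩ := hdiv
  have hsq : ¬ IsSquare n := not_sq (m := 3) (by omega) (by omega)
  by_cases hnag : √(n : ℝ) * ((3 * e : ℕ) : ℝ) < ∑ i, (w i : ℝ)
  · refine Van_of_Emp (Pool.Agent.TH603.EL.Emp_plane (by rw [Fintype.card_fin]; omega) ?_)
    rw [Fintype.card_fin]
    exact hnag
  rw [not_lt] at hnag
  obtain ⟨a, ha⟩ : ∃ a, (univ.filter fun i => w i = k + 1).card = a := ⟨_, rfl⟩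
  have han : a ≤ n := by
    rw [← ha]
    exact (card_filter_le _ _).trans (by simp)
  obtain ⟨b, hb⟩ := Nat.exists_eq_add_of_le han
  have hnb : n - a = b := by omega
  have hsq2 : ∑ i, w i ^ 2 = n * k ^ 2 + (2 * k + 1) * a := by
    rw [sum_comp hw ha (fun x => x ^ 2), hnb, hb]; ring
  have hs1 : ∑ i, w i = n * k + a := by
    rw [sum_comp hw ha (fun x => x), hnb, hb]; ring
  rw [hsq2] at hpos
  -- strict Nagata
  have hlt : (n * k + a) ^ 2 < n * (3 * e) ^ 2 := by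
    have hirr : Irrational (√(n : ℝ)) := irrational_sqrt_natCast_iff.2 hsq
    have hs : √(n : ℝ) * √(n : ℝ) = n := Real.mul_self_sqrt (Nat.cast_nonneg n)
    have e1 : ∑ i, (w i : ℝ) = ((n * k + a : ℕ) : ℝ) := by rw [← hs1]; push_cast; rfl
    rw [e1] at hnag
    have h1 := mul_self_le_mul_self (Nat.cast_nonneg (n * k + a)) hnag
    have e2 : √(n : ℝ) * ((3 * e : ℕ) : ℝ) * (√(n : ℝ) * ((3 * e : ℕ) : ℝ)) =
        ((n * (3 * e) ^ 2 : ℕ) : ℝ) := by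
      calc √(n : ℝ) * ((3 * e : ℕ) : ℝ) * (√(n : ℝ) * ((3 * e : ℕ) : ℝ))
          = (√(n : ℝ) * √(n : ℝ)) * ((3 * e : ℕ) : ℝ) ^ 2 := by ring
        _ = (n : ℝ) * ((3 * e : ℕ) : ℝ) ^ 2 := by rw [hs]
        _ = ((n * (3 * e) ^ 2 : ℕ) : ℝ) := by rw [Nat.cast_mul n, Nat.cast_pow (3 * e)]
    rw [e2] at h1
    have h2 : (n * k + a) ^ 2 ≤ n * (3 * e) ^ 2 := by
      have : (((n * k + a) ^ 2 : ℕ) : ℝ) ≤ ((n * (3 * e) ^ 2 : ℕ) : ℝ) := by
        rw [Nat.cast_pow, sq]; exact h1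
      exact_mod_cast this
    refine lt_of_le_of_ne h2 fun h3 => ?_
    have h4 : √(n : ℝ) * ((3 * e : ℕ) : ℝ) = ((n * k + a : ℕ) : ℝ) := by
      have h5 : (√(n : ℝ) * ((3 * e : ℕ) : ℝ)) ^ 2 = ((n * k + a : ℕ) : ℝ) ^ 2 := by
        rw [sq, e2, ← h3, Nat.cast_pow]
      exact (sq_eq_sq₀ (by positivity) (Nat.cast_nonneg _)).1 h5
    have h6 : (0 : ℝ) < ((3 * e : ℕ) : ℝ) := by exact_mod_cast hd
    apply hirr
    refine ⟨((n * k + a : ℕ) : ℚ) / ((3 * e : ℕ) : ℚ), ?_⟩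
    rw [Rat.cast_div, Rat.cast_natCast, Rat.cast_natCast, div_eq_iff h6.ne']
    exact h4.symm
  have hn2 : n = 10 ∨ n = 11 := by omega
  rcases hn2 with rfl | rfl
  · obtain ⟨v, hv1, hv2, he⟩ := num10 hk han hlt hpos
    refine Van_of_Emp (Emp_pell (n := 10) (z := 1) (v := v) (Or.inl rfl) he hv2 ?_
      (Fintype.card_fin 10) (by rw [hs1]; exact hv1))
    by_contra hcon
    have : v ^ 2 ≤ (3 * e) ^ 2 := Nat.pow_le_pow_left (by omega) 2
    nlinarith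
  · obtain ⟨v, hv1, hv2, he⟩ := num11 hk han hlt hpos
    have hv3 : 3 * e + 3 ≤ v := by
      by_contra hcon
      have h1 : v ^ 2 ≤ (3 * e + 2) ^ 2 := Nat.pow_le_pow_left (by omega) 2
      nlinarith
    exact Van_of_Emp (Emp_pell (n := 11) (z := 2) (v := v) (Or.inr ⟨rfl, hv3⟩) (by omega) hv2
      (by omega) (Fintype.card_fin 11) (by rw [hs1]; exact hv1))

end Pool.Agent.TH718.UG
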