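import Mathlib

/-! Counting: the rows of the flattened Tate triangle whose apex is an integral point. -/

namespace Pool.Agent.TH718.UG

open Finset

/-- The row number `j` of the flattened triangle (columns counted downwards) has at most `W - n j`
points. -/
theorem row_card {s : ℝ} {n : ℕ} (hs : s * s = n) (hs3 : 3 < s) (hirr : Irrational s) {d : ℕ} (hd : 0 < d)
    {W : ℤ} (h3 : 10 < 3 * s ∨ ¬ 3 ∣ d) (h : s * d < W + 1 - 3 / s) (j : ℕ) (B : Finset ℤ)
    (hB : ∀ u ∈ B, ∃ σ : ℕ, (u : ℝ) ≤ s * d - 3 * s * (j + σ) ∧ (s - 3) * (d - 3 * σ) ≤ u)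
    (hne : B.Nonempty) : (B.card : ℤ) ≤ W - n * j := by
  classical
  have hs0 : 0 < s := by linarith
  have hs3' : 0 < s - 3 := by linarith
  obtain ⟨G, hG⟩ : ∃ G : ℤ, G = ⌊3 * s * j⌋ := ⟨_, rfl⟩
  have hG1 : (G : ℝ) ≤ 3 * s * j := by rw [hG]; exact Int.floor_le _
  have hG2 : 3 * s * j < G + 1 := by rw [hG]; exact Int.lt_floor_add_one _
  have h3s : 3 / s * s = 3 := by field_simp
  have h3s0 : 0 < 3 / s := by positivity
  -- lower bound
  have hlow : ∀ u ∈ B, (n : ℤ) * j - G ≤ u := by
    intro u hu
    obtain ⟨σ, h1, h2⟩ := hB u hu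
    have h4 : s * ((s - 3) * (d - 3 * σ)) ≤ s * u := mul_le_mul_of_nonneg_left h2 hs0.le
    have h5 : (s - 3) * u ≤ (s - 3) * (s * d - 3 * s * (j + σ)) :=
      mul_le_mul_of_nonneg_left h1 hs3'.le
    have h6 : s * (s - 3) * j ≤ u := by nlinarith
    have h7 : (n : ℝ) * j - 3 * s * j ≤ u := by
      rw [← hs]; linarith
    have h8 : (n : ℝ) * j - u < G + 1 := by linarith
    have h9 : ((n * j - u : ℤ) : ℝ) < ((G + 1 : ℤ) : ℝ) := by push_cast; exact h8
    have h10 : (n : ℤ) * j - u < G + 1 := by exact_mod_cast h9
    omega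
  have hup : ∀ u ∈ B, (u : ℝ) ≤ s * d - 3 * s * j := by
    intro u hu
    obtain ⟨σ, h1, h2⟩ := hB u hu
    have : 0 ≤ 3 * s * σ := by positivity
    linarith
  by_cases hcase : s * d - 3 * s * j < W - G
  · -- the right end is small
    have hsub : B ⊆ Icc ((n : ℤ) * j - G) (W - G - 1) := by
      intro u hu
      rw [Finset.mem_Icc]
      refine ⟨hlow u hu, ?_⟩
      have h4 : ((u : ℤ) : ℝ) < ((W - G : ℤ) : ℝ) := by
        push_cast
        exact (hup u hu).trans_lt hcase
      have h5 : u < W - G := by exact_mod_cast h4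
      omega
    obtain ⟨u, hu⟩ := hne
    have h4 := Finset.mem_Icc.1 (hsub hu)
    have h5 := card_le_card hsub
    rw [Int.card_Icc] at h5
    omega
  · rw [not_lt] at hcase
    have hf : 3 * s * j - G < 1 - 3 / s := by linarith
    have hupZ : ∀ u ∈ B, u ≤ W - G := by
      intro u hu
      have h4 : ((u : ℤ) : ℝ) < ((W - G + 1 : ℤ) : ℝ) := by
        push_cast
        have := hup u hu
        linarith
      have h5 : u < W - G + 1 := by exact_mod_cast h4
      omega
    rcases Nat.eq_zero_or_pos j with rfl | hj
    · -- the bottom row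
      have hG0 : G = 0 := by rw [hG]; simp
      subst hG0
      simp only [Nat.cast_zero, mul_zero, sub_zero] at hlow hupZ hcase hf hup ⊢
      have hW : 1 ≤ W := by
        have h4 : s * 1 ≤ s * d := mul_le_mul_of_nonneg_left (by exact_mod_cast hd) hs0.le
        have h5 : (1 : ℝ) < W := by
          have h6 : 3 / s < 1 := by rw [div_lt_one hs0]; exact hs3
          linarith
        have h7 : ((1 : ℤ) : ℝ) < (W : ℝ) := by exact_mod_cast h5
        have h8 : (1 : ℤ) < W := by exact_mod_cast h7
        omega
      by_cases h3d : 3 ∣ d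
      · have hs10 : 10 < 3 * s := h3.resolve_right (fun hh => hh h3d)
        have h1B : (1 : ℤ) ∉ B := by
          intro h1
          obtain ⟨σ, g1, g2⟩ := hB 1 h1
          simp only [Nat.cast_zero, zero_add, Int.cast_one] at g1 g2
          have g3 : s * 0 < s * ((d : ℝ) - 3 * σ) := by linarith
          have g4 : (0 : ℝ) < (d : ℝ) - 3 * σ := lt_of_mul_lt_mul_left g3 hs0.le
          have g5 : (3 * σ : ℕ) < d := by
            have : ((3 * σ : ℕ) : ℝ) < (d : ℝ) := by push_cast; linarith
            exact_mod_cast this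
          have g6 : 3 * σ + 3 ≤ d := by omega
          have g7 : (3 : ℝ) ≤ (d : ℝ) - 3 * σ := by
            have : ((3 * σ + 3 : ℕ) : ℝ) ≤ (d : ℝ) := by exact_mod_cast g6
            push_cast at this
            linarith
          have g8 : (s - 3) * 3 ≤ (s - 3) * ((d : ℝ) - 3 * σ) := mul_le_mul_of_nonneg_left g7 hs3'.le
          linarith
        have hsub : B ⊆ (Icc (0 : ℤ) W).erase 1 := by
          intro u hu
          rw [Finset.mem_erase, Finset.mem_Icc]
          exact ⟨fun hh => h1B (hh ▸ hu), hlow u hu, hupZ u hu⟩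
        have h5 := card_le_card hsub
        rw [card_erase_of_mem (by rw [Finset.mem_Icc]; omega), Int.card_Icc] at h5
        omega
      · have h0B : (0 : ℤ) ∉ B := by
          intro h1
          obtain ⟨σ, g1, g2⟩ := hB 0 h1
          simp only [Nat.cast_zero, zero_add, Int.cast_zero] at g1 g2
          have g3 : s * 0 ≤ s * ((d : ℝ) - 3 * σ) := by linarith
          have g4 : (0 : ℝ) ≤ (d : ℝ) - 3 * σ := le_of_mul_le_mul_left g3 hs0
          have g5 : (s - 3) * ((d : ℝ) - 3 * σ) ≤ (s - 3) * 0 := by linarith
          have g6 : (d : ℝ) - 3 * σ ≤ 0 := le_of_mul_le_mul_left g5 hs3'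
          have g7 : (d : ℝ) = ((3 * σ : ℕ) : ℝ) := by push_cast; linarith
          exact h3d ⟨σ, by exact_mod_cast g7⟩
        have hsub : B ⊆ Icc (1 : ℤ) W := by
          intro u hu
          rw [Finset.mem_Icc]
          refine ⟨?_, hupZ u hu⟩
          have h6 := hlow u hu
          rcases Int.lt_or_eq_of_le h6 with h7 | h7
          · omega
          · exact absurd (h7 ▸ hu) h0B
        have h5 := card_le_card hsub
        rw [Int.card_Icc] at h5
        omega
    · -- the other rows
      have hjR : (0 : ℝ) < j := by exact_mod_cast hj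
      have hf0 : 0 < 3 * s * j - G := by
        rcases lt_or_eq_of_le hG1 with h4 | h4
        · linarith
        · exfalso
          have h5 : Irrational (((3 * j : ℕ) : ℝ) * s) := hirr.natCast_mul (by omega)
          apply h5
          refine ⟨(G : ℚ), ?_⟩
          push_cast
          rw [h4]; ring
      have h0B : ((n : ℤ) * j - G) ∉ B := by
        intro h1
        obtain ⟨σ, g1, g2⟩ := hB _ h1
        push_cast at g1 g2
        obtain ⟨f, hfdef⟩ : ∃ f : ℝ, f = 3 * s * j - G := ⟨_, rfl⟩
        have hG' : (G : ℝ) = 3 * s * j - f := by rw [hfdef]; ring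
        rw [← hfdef] at hf0 hf
        obtain ⟨e, he⟩ : ∃ e : ℝ, e = (d : ℝ) - 3 * σ := ⟨_, rfl⟩
        -- lower bound
        have k1 : s * s * j + f ≤ s * e := by
          rw [he]
          rw [← hs, hG'] at g1
          linarith
        have k2 : (s - 3) * e ≤ s * (s - 3) * j + f := by
          rw [he]
          rw [← hs, hG'] at g2
          linarith
        have k3 : 0 < s * (3 * e - G) := by
          rw [hG']
          have : s * (3 * e - (3 * s * j - f)) = 3 * (s * e - s * s * j) + s * f := by ring
          rw [this]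
          have : 0 < s * f := mul_pos hs0 hf0
          nlinarith
        have k4 : 0 < 3 * e - G := by
          by_contra hcon
          rw [not_lt] at hcon
          have := mul_nonpos_of_nonneg_of_nonpos hs0.le hcon
          linarith
        have k5 : s * f < s - 3 := by
          have : s * f < s * (1 - 3 / s) := mul_lt_mul_of_pos_left hf hs0
          have e2 : s * (1 - 3 / s) = s - 3 := by
            have : s * (1 - 3 / s) = s - 3 / s * s := by ring
            rw [this, h3s]
          linarith
        have k6 : (s - 3) * (3 * e - G) < (s - 3) * 1 := by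
          rw [hG']
          have : (s - 3) * (3 * e - (3 * s * j - f)) = 3 * ((s - 3) * e - s * (s - 3) * j) + (s - 3) * f := by
            ring
          rw [this]
          nlinarith
        have k7 : 3 * e - G < 1 := lt_of_mul_lt_mul_left k6 hs3'.le
        have k8 : (0 : ℤ) < 3 * ((d : ℤ) - 3 * σ) - G := by
          have : ((0 : ℤ) : ℝ) < ((3 * ((d : ℤ) - 3 * σ) - G : ℤ) : ℝ) := by
            push_cast; rw [← he]; exact k4
          exact_mod_cast this
        have k9 : 3 * ((d : ℤ) - 3 * σ) - G < 1 := by
          have : ((3 * ((d : ℤ) - 3 * σ) - G : ℤ) : ℝ) < ((1 : ℤ) : ℝ) := by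
            push_cast; rw [← he]; exact k7
          exact_mod_cast this
        omega
      have hsub : B ⊆ Icc ((n : ℤ) * j - G + 1) (W - G) := by
        intro u hu
        rw [Finset.mem_Icc]
        refine ⟨?_, hupZ u hu⟩
        have h6 := hlow u hu
        rcases Int.lt_or_eq_of_le h6 with h7 | h7
        · omega
        · exact absurd (h7 ▸ hu) h0B
      obtain ⟨u, hu⟩ := hne
      have h4 := Finset.mem_Icc.1 (hsub hu)
      have h5 := card_le_card hsub
      rw [Int.card_Icc] at h5
      omega

end Pool.Agent.TH718.UG
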