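import Pool.Agent.TH603.EL.Sq
import Pool.Agent.TH641.NW.Cnt
import Pool.Agent.TH603.Sur.Rows
import Pool.Agent.TH603.Cut.FlatE
import Pool.Agent.TH718.UG.Row

/-! Emptiness below `sqrt n d < W + 1 - 3 / sqrt n`. -/

namespace Pool.Agent.TH718.UG

open Finset Pool.Agent.TH176.Nag Pool.Agent.TH603.Sur Pool.Agent.TH603.Cut Pool.Agent.TH641.NW

/-- sorting the rows -/
theorem Emp_sorted {ι : Type} [Fintype ι] {w : ι → ℕ} {S : Set (ℤ × ℤ)} (hpos : ∀ p ∈ S, 0 ≤ p.2)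
    (hcard : ∀ (j : ℕ) (B : Finset ℤ), (∀ c ∈ B, ((c, (j : ℤ)) : ℤ × ℤ) ∈ S) →
      B.card ≤ ∑ i, (w i - j)) : Emp w S := by
  classical
  have h' : Emp w {p : ℤ × ℤ | 0 ≤ p.1 ∧ 0 ≤ p.2 ∧ p.2 < ((∑ i, (w i - p.1.toNat) : ℕ) : ℤ)} := by
    refine (Emp_rows w 0).comap 0 1 1 0 0 0 (by norm_num) ?_
    rintro ⟨a, b⟩ ⟨g1, g2, g3⟩
    simp only at g1 g2 g3
    have e : 1 * a + 0 * b + 0 = a := by ring
    have e' : 0 * a + 1 * b + 0 = b := by ring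
    rw [e, e']
    refine ⟨g1, g2, ?_⟩
    simpa using g3
  have hD : Emp w {p : ℤ × ℤ | ((p.2, p.1) : ℤ × ℤ) ∈ S} := by
    refine Emp_flat0 ?_ h'
    intro j B hBm k hk
    have hj : 0 ≤ j := by
      obtain ⟨b, hb⟩ := card_pos.1 (show 0 < B.card by omega)
      exact hpos _ (hBm b hb)
    obtain ⟨j', rfl⟩ := Int.eq_ofNat_of_zero_le hj
    have h5 := hcard j' B hBm
    refine ⟨by simp, by simp, ?_⟩
    simp only [Int.toNat_natCast]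
    have : k < ∑ i, (w i - j') := lt_of_lt_of_le hk h5
    exact_mod_cast this
  refine hD.comap 0 1 1 0 0 0 (by norm_num) ?_
  rintro ⟨a, b⟩ hab
  simpa using hab

/-- the flattened Tate triangle whose apex is an integral point -/
theorem Emp_of_rows {ι : Type} [Fintype ι] {w : ι → ℕ} {d : ℕ} {s : ℝ} (hirr : Irrational s)
    (hs0 : 0 < s)
    (H : ∀ (j : ℕ) (B : Finset ℤ), (∀ u ∈ B, ∃ σ : ℕ, (u : ℝ) ≤ s * d - 3 * s * (j + σ) ∧
      (s - 3) * (d - 3 * σ) ≤ u) → B.card ≤ ∑ i, (w i - j)) :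
    Emp w {m : ℤ × ℤ | 0 ≤ m.1 ∧ 0 ≤ m.2 ∧ m.1 + m.2 ≤ (d : ℤ)} := by
  classical
  obtain ⟨V, hV⟩ : ∃ V : ℤ, V = ⌊s⌋ := ⟨_, rfl⟩
  have hV1 : (V : ℝ) < s := by
    rw [hV]
    refine lt_of_le_of_ne (Int.floor_le s) ?_
    intro he
    exact hirr ⟨(⌊s⌋ : ℚ), by push_cast; exact he⟩
  have hV2 : s < V + 1 := by rw [hV]; exact Int.lt_floor_add_one s
  obtain ⟨τ, hτ⟩ : ∃ τ : ℝ, τ = s - V := ⟨_, rfl⟩
  have hτ0 : 0 < τ := by linarith
  have hτ1 : τ < 1 := by linarith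
  apply Pool.Agent.TH603.EL.Emp_key hτ0 hτ1
  refine Emp_flat (S' := {p : ℤ × ℤ | 0 ≤ p.2 ∧ p.1 ∈ U (-((d : ℝ) * (1 + τ)) + 3 * s * (p.2 : ℝ))
    (3 * d - 3 * s * (p.2 : ℝ)) (3 * s)}) 1 (3 * (V - 1)) 1 0 (by ring) ?_ ?_
  · rintro ⟨a, b⟩ T k ⟨g1, g2, g3⟩ ⟨g4, g5, g6⟩ hk
    simp only at g1 g2 g3 g4 g5 g6
    obtain ⟨r, rfl⟩ := Int.eq_ofNat_of_zero_le g1
    refine ⟨by simp, r, ?_, ?_⟩
    · push_cast at g2 g3 g5 g6 ⊢
      have hkR : (k : ℝ) ≤ T := by exact_mod_cast hk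
      have h7 : 3 * s * k ≤ 3 * s * T := mul_le_mul_of_nonneg_left hkR (by linarith)
      rw [hτ] at g2 g3 g5 g6 ⊢
      linarith
    · push_cast at g2 g3 g5 g6 ⊢
      rw [hτ] at g2 g3 g5 g6 ⊢
      linarith
  · refine Emp_sorted (fun p hp => hp.1) ?_
    intro j B hB
    obtain ⟨B', hB'⟩ : ∃ B' : Finset ℤ, B' = B.image (fun c => (d : ℤ) * (V - 1) - c) := ⟨_, rfl⟩
    have hcard' : B'.card = B.card := by
      rw [hB']
      exact card_image_of_injective _ (fun x y hxy => by simpa using hxy)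
    rw [← hcard']
    apply H j B'
    intro u hu
    rw [hB', mem_image] at hu
    obtain ⟨c, hc1, rfl⟩ := hu
    obtain ⟨-, r, g1, g2⟩ := hB c hc1
    refine ⟨r, ?_, ?_⟩
    · push_cast at g1 g2 ⊢
      rw [hτ] at g1 g2
      linarith
    · push_cast at g1 g2 ⊢
      rw [hτ] at g1 g2
      linarith

theorem sqrt_facts {n : ℕ} (hn : 10 ≤ n) : √(n : ℝ) * √(n : ℝ) = n ∧ 3 < √(n : ℝ) := by
  have hnR : (10 : ℝ) ≤ n := by exact_mod_cast hn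
  have hs : √(n : ℝ) * √(n : ℝ) = n := Real.mul_self_sqrt (by linarith)
  refine ⟨hs, ?_⟩
  by_contra hcon
  rw [not_lt] at hcon
  have : 0 ≤ √(n : ℝ) := Real.sqrt_nonneg _
  nlinarith

/-- **emptiness** below `sqrt n d < W + 1 - 3 / sqrt n` -/
theorem Emp_gap {ι : Type} [Fintype ι] {w : ι → ℕ} {n d : ℕ} (hn : 10 ≤ n) (hsq : ¬ IsSquare n)
    (hc : Fintype.card ι = n) (hd : 0 < d) (h3 : 12 ≤ n ∨ ¬ 3 ∣ d)
    (h : √(n : ℝ) * d < ((∑ i, w i : ℕ) : ℝ) + 1 - 3 / √(n : ℝ)) :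
    Emp w {m : ℤ × ℤ | 0 ≤ m.1 ∧ 0 ≤ m.2 ∧ m.1 + m.2 ≤ (d : ℤ)} := by
  classical
  have hirr : Irrational (√(n : ℝ)) := irrational_sqrt_natCast_iff.2 hsq
  obtain ⟨hs, hs3⟩ := sqrt_facts hn
  have hs10 : 10 < 3 * √(n : ℝ) ∨ ¬ 3 ∣ d := by
    rcases h3 with h3 | h3
    · left
      by_contra hcon
      rw [not_lt] at hcon
      have h12 : (12 : ℝ) ≤ n := by exact_mod_cast h3
      nlinarith
    · exact Or.inr h3
  refine Emp_of_rows hirr (by linarith) ?_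
  intro j B hB
  rcases B.eq_empty_or_nonempty with rfl | hne
  · simp
  have h1 := row_card (W := ((∑ i, w i : ℕ) : ℤ)) hs hs3 hirr hd hs10
    (by push_cast at h ⊢; exact h) j B hB hne
  have h2 : ∑ i, w i ≤ ∑ i, (w i - j) + n * j := by
    have : n * j = ∑ _i : ι, j := by simp [hc]
    rw [this, ← sum_add_distrib]
    exact sum_le_sum fun i _ => by omega
  have h3' : ((∑ i, w i : ℕ) : ℤ) ≤ ((∑ i, (w i - j) : ℕ) : ℤ) + n * j := by exact_mod_cast h2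
  have h4 : (B.card : ℤ) ≤ ((∑ i, (w i - j) : ℕ) : ℤ) := by linarith
  exact_mod_cast h4

/-- the same for all `n ≥ 10`, squares included -/
theorem Emp_gap' {ι : Type} [Fintype ι] {w : ι → ℕ} {n d : ℕ} (hn : 10 ≤ n)
    (hc : Fintype.card ι = n) (hd : 0 < d) (h3 : 12 ≤ n ∨ ¬ 3 ∣ d)
    (h : √(n : ℝ) * d < ((∑ i, w i : ℕ) : ℝ) + 1 - 3 / √(n : ℝ)) :
    Emp w {m : ℤ × ℤ | 0 ≤ m.1 ∧ 0 ≤ m.2 ∧ m.1 + m.2 ≤ (d : ℤ)} := by
  by_cases hsq : IsSquare n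
  · obtain ⟨k, hk⟩ := hsq
    have hk4 : 4 ≤ k := by
      by_contra hcon
      have : k ≤ 3 := by omega
      nlinarith
    have hsqrt : √(n : ℝ) = k := by
      rw [hk]
      push_cast
      exact Real.sqrt_mul_self (Nat.cast_nonneg k)
    rw [hsqrt] at h
    have hk0 : (0 : ℝ) < k := by exact_mod_cast (by omega : 0 < k)
    have h1 : ((k * d : ℕ) : ℝ) < ((∑ i, w i + 1 : ℕ) : ℝ) := by
      push_cast at h ⊢
      have : 0 < 3 / (k : ℝ) := by positivity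
      linarith
    have h2 : k * d < ∑ i, w i + 1 := by exact_mod_cast h1
    have h3 : k * d ≤ ∑ i, w i := by omega
    apply Pool.Agent.TH603.EL.Emp_square hk4 hd (by rw [hc, hk]; ring)
    have h4 : ((k * d : ℕ) : ℝ) ≤ ((∑ i, w i : ℕ) : ℝ) := by exact_mod_cast h3
    push_cast at h4
    exact h4
  · exact Emp_gap hn hsq hc hd h3 h

/-- the row number `j`, for single systems -/
def rowset (n d U j : ℕ) : Finset ℕ :=
  (range (U + 1)).filter fun u => ∃ σ ∈ range (d / 3 + 1), 3 * (j + σ) ≤ d ∧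
    n * (d - 3 * σ) ^ 2 ≤ (u + 3 * (d - 3 * σ)) ^ 2 ∧ u ^ 2 ≤ n * (d - 3 * (j + σ)) ^ 2

/-- single systems: the exact rows -/
theorem Emp_check {ι : Type} [Fintype ι] {w : ι → ℕ} {n d U : ℕ} (hn : 10 ≤ n) (hsq : ¬ IsSquare n)
    (hU : n * d ^ 2 ≤ U ^ 2)
    (H : ∀ j : ℕ, 3 * j ≤ d → (rowset n d U j).card ≤ ∑ i, (w i - j)) :
    Emp w {m : ℤ × ℤ | 0 ≤ m.1 ∧ 0 ≤ m.2 ∧ m.1 + m.2 ≤ (d : ℤ)} := by
  classical
  have hirr : Irrational (√(n : ℝ)) := irrational_sqrt_natCast_iff.2 hsq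
  obtain ⟨hs, hs3⟩ := sqrt_facts hn
  obtain ⟨s, hsdef⟩ : ∃ s, s = √(n : ℝ) := ⟨_, rfl⟩
  rw [← hsdef] at hirr hs hs3
  have hs0 : 0 < s := by linarith
  refine Emp_of_rows hirr hs0 ?_
  intro j B hB
  -- the facts for one element
  have key : ∀ u ∈ B, ∃ v : ℕ, (v : ℤ) = u ∧ v ∈ rowset n d U j ∧ 3 * j ≤ d := by
    intro u hu
    obtain ⟨σ, h1, h2⟩ := hB u hu
    have h0 : (s - 3) * (d - 3 * σ) ≤ s * (d - 3 * σ) - 3 * s * j := by linarith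
    have h3 : s * j ≤ (d : ℝ) - 3 * σ := by
      have : 3 * (s * j) ≤ 3 * ((d : ℝ) - 3 * σ) := by nlinarith
      linarith
    have h4 : (3 : ℝ) * j ≤ s * j := mul_le_mul_of_nonneg_right hs3.le (Nat.cast_nonneg j)
    have h5 : ((3 * (j + σ) : ℕ) : ℝ) ≤ (d : ℝ) := by push_cast; linarith
    have h6 : 3 * (j + σ) ≤ d := by exact_mod_cast h5
    have h7 : 3 * σ ≤ d := by omega
    have h8 : ((d - 3 * σ : ℕ) : ℝ) = (d : ℝ) - 3 * σ := by push_cast [Nat.cast_sub h7]; ring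
    have h9 : ((d - 3 * (j + σ) : ℕ) : ℝ) = (d : ℝ) - 3 * (j + σ) := by
      push_cast [Nat.cast_sub h6]; ring
    have he0 : (0 : ℝ) ≤ (d : ℝ) - 3 * σ := by rw [← h8]; exact Nat.cast_nonneg _
    have hu0R : (0 : ℝ) ≤ u := le_trans (mul_nonneg (by linarith) he0) h2
    have hu0 : 0 ≤ u := by exact_mod_cast hu0R
    obtain ⟨v, rfl⟩ := Int.eq_ofNat_of_zero_le hu0
    simp only [Int.cast_natCast] at h1 h2
    have h10 : (v : ℝ) ≤ s * ((d - 3 * (j + σ) : ℕ) : ℝ) := by rw [h9]; linarith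
    have h11 : s * ((d - 3 * σ : ℕ) : ℝ) ≤ v + 3 * ((d - 3 * σ : ℕ) : ℝ) := by rw [h8]; linarith
    have h12 : ((v ^ 2 : ℕ) : ℝ) ≤ ((n * (d - 3 * (j + σ)) ^ 2 : ℕ) : ℝ) := by
      rw [Nat.cast_mul, Nat.cast_pow, Nat.cast_pow, ← hs]
      have := mul_self_le_mul_self (Nat.cast_nonneg v) h10
      nlinarith
    have h13 : ((n * (d - 3 * σ) ^ 2 : ℕ) : ℝ) ≤ (((v + 3 * (d - 3 * σ)) ^ 2 : ℕ) : ℝ) := by
      rw [Nat.cast_mul, Nat.cast_pow, Nat.cast_pow, Nat.cast_add, Nat.cast_mul, ← hs]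
      have h14 : (0 : ℝ) ≤ s * ((d - 3 * σ : ℕ) : ℝ) := by positivity
      have := mul_self_le_mul_self h14 h11
      push_cast
      nlinarith
    have h15 : v ^ 2 ≤ n * (d - 3 * (j + σ)) ^ 2 := by exact_mod_cast h12
    refine ⟨v, rfl, ?_, by omega⟩
    unfold rowset
    rw [mem_filter, mem_range]
    refine ⟨?_, σ, ?_, h6, by exact_mod_cast h13, h15⟩
    · have h16 : v ^ 2 ≤ U ^ 2 := by
        refine h15.trans (le_trans ?_ hU)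
        exact Nat.mul_le_mul_left _ (Nat.pow_le_pow_left (by omega) 2)
      have h17 : v ≤ U := (Nat.pow_le_pow_iff_left (by norm_num)).1 h16
      omega
    · rw [mem_range]; omega
  rcases B.eq_empty_or_nonempty with rfl | ⟨u0, hu0⟩
  · simp
  obtain ⟨-, -, -, hj⟩ := key u0 hu0
  refine le_trans ?_ (H j hj)
  have hsub : B ⊆ (rowset n d U j).image (fun v : ℕ => (v : ℤ)) := by
    intro u hu
    obtain ⟨v, hv1, hv2, -⟩ := key u hu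
    rw [mem_image]
    exact ⟨v, hv2, hv1⟩
  exact (card_le_card hsub).trans card_image_le

end Pool.Agent.TH718.UG
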