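import Mathlib

/-! The numerical part for near-uniform multiplicities. -/

namespace Pool.Agent.TH718.UG

/-- the numerical conditions of the starting result, in decidable form, or an exception -/
def okN (n k a : ℕ) : Prop :=
  (k ≤ n + 10 ∧ 36 * n ≤ (n + 10 - k) ^ 2) ∨
  (∃ δ ∈ Finset.Icc 2 5, δ ^ 2 ≤ n ∧ (n - δ ^ 2) % 2 = 0 ∧ (n = δ ^ 2 ∨
    a * ((k + 1) * (k + 2)) + (n - a) * (k * (k + 1)) < δ ^ 2 * (δ ^ 2 + 3) * (δ ^ 2 + 4))) ∨
  (n = 12 ∧ k = 6 ∧ a = 4) ∨ (n = 14 ∧ k = 3 ∧ a = 10) ∨ (n = 10 ∧ k = 4 ∧ a = 4) ∨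
  (n = 10 ∧ k = 7 ∧ a = 9) ∨ (n = 10 ∧ k = 19 ∧ a = 6)

instance (n k a : ℕ) : Decidable (okN n k a) := by unfold okN; infer_instance

/-- the finite check -/
def chk (n k a : ℕ) : Bool :=
  decide ((n * Nat.sqrt (n * k ^ 2 + (2 * k + 1) * a) + 3) ^ 2 < n * (n * k + a + 1) ^ 2) ||
    decide (okN n k a)

theorem chk_all : ∀ n ∈ Finset.Ico 10 34, ∀ k ∈ Finset.Ico 1 25, ∀ a ∈ Finset.range (n + 1),
    chk n k a = true := by
  decide +kernel

theorem bound_k {s k : ℝ} (h1 : 3.162 < s) (h2 : s < 5.84) (h3 : 8 * (s - 3) * k < s ^ 3) : k < 25 := by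
  have e : (s - 3.162) * (5.84 - s) * (s + 9.002) =
      -s ^ 3 + (3.162 ^ 2 + 3.162 * 5.84 + 5.84 ^ 2) * s - 3.162 * 5.84 * 9.002 := by ring
  have h4 : 0 ≤ (s - 3.162) * (5.84 - s) * (s + 9.002) :=
    mul_nonneg (mul_nonneg (by linarith) (by linarith)) (by linarith)
  have h5 : s ^ 3 ≤ 200 * (s - 3) := by norm_num at e; linarith
  have h6 : 8 * (s - 3) * k < 8 * (s - 3) * 25 := by linarith
  exact lt_of_mul_lt_mul_left h6 (by linarith)

theorem bound_n {s k : ℝ} (hs : 5.83 < s) (hk : s ^ 2 - 6 * s + 10 < k)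
    (h : 8 * (s - 3) * k < s ^ 3) : False := by
  have h1 : 8 * (s - 3) * (s ^ 2 - 6 * s + 10) < 8 * (s - 3) * k :=
    mul_lt_mul_of_pos_left hk (by linarith)
  have e : (s - 5.83) * (s * (7 * s - 31.19) + 42.1623) =
      7 * s ^ 3 - 72 * s ^ 2 + 224 * s - 245.806209 := by ring
  have e2 : 8 * (s - 3) * (s ^ 2 - 6 * s + 10) = 8 * s ^ 3 - 72 * s ^ 2 + 224 * s - 240 := by ring
  have h4 : 0 ≤ s * (7 * s - 31.19) := mul_nonneg (by linarith) (by linarith)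
  have h5 : 0 ≤ (s - 5.83) * (s * (7 * s - 31.19) + 42.1623) :=
    mul_nonneg (by linarith) (by linarith)
  linarith

theorem bound_main {s n k a d : ℝ} (hs : s * s = n) (hs3 : 3 < s) (hk : 0 < k) (ha : 0 ≤ a)
    (hd : d ^ 2 ≤ n * k ^ 2 + (2 * k + 1) * a)
    (hgap : n * k + a + 1 - 3 / s ≤ s * d) : 8 * (s - 3) * k < s ^ 3 := by
  have hs0 : 0 < s := by linarith
  have hn0 : 0 < n := by rw [← hs]; positivity
  have h3s : s * (3 / s) = 3 := by field_simp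
  obtain ⟨Δ, hΔdef⟩ : ∃ Δ : ℝ, Δ = 1 - 3 / s := ⟨_, rfl⟩
  have hsΔ : s * Δ = s - 3 := by rw [hΔdef, mul_sub, h3s]; ring
  have hΔ0 : 0 < Δ := by
    have : 3 / s < 1 := by rw [div_lt_one hs0]; exact hs3
    linarith
  have h4 : n * k + a + 1 - 3 / s = n * k + a + Δ := by rw [hΔdef]; ring
  rw [h4] at hgap
  have hW0 : 0 ≤ n * k + a + Δ := by positivity
  have h2 := mul_self_le_mul_self hW0 hgap
  have h3 : s * d * (s * d) = n * d ^ 2 := by rw [← hs]; ring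
  rw [h3] at h2
  have h1 : n * d ^ 2 ≤ n * (n * k ^ 2 + (2 * k + 1) * a) := mul_le_mul_of_nonneg_left hd hn0.le
  have e1 : (n * k + a + Δ) * (n * k + a + Δ) - n * (n * k ^ 2 + (2 * k + 1) * a) =
      2 * Δ * (n * k) + 2 * Δ * a + Δ ^ 2 - a * (n - a) := by ring
  have h6 : a * (n - a) ≤ n ^ 2 / 4 := by
    have := sq_nonneg (a - n / 2)
    have e : (a - n / 2) ^ 2 = a ^ 2 - a * n + n ^ 2 / 4 := by ring
    have e' : a * (n - a) = a * n - a ^ 2 := by ring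
    linarith
  have h7 : 0 ≤ 2 * Δ * a := by positivity
  have h7' : 0 < Δ ^ 2 := by positivity
  have h8 : 8 * (Δ * (n * k)) < n ^ 2 := by
    have : 2 * Δ * (n * k) = 2 * (Δ * (n * k)) := by ring
    linarith
  have h9 : n * (8 * (Δ * k)) < n * n := by
    have e : n * (8 * (Δ * k)) = 8 * (Δ * (n * k)) := by ring
    rw [e, ← sq]; exact h8
  have h10 : 8 * (Δ * k) < n := lt_of_mul_lt_mul_left h9 hn0.le
  have h11 : s * (8 * (Δ * k)) < s * n := mul_lt_mul_of_pos_left h10 hs0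
  have h12 : s * (8 * (Δ * k)) = 8 * (s - 3) * k := by
    rw [← hsΔ]; ring
  have h13 : s * n = s ^ 3 := by rw [← hs]; ring
  rw [h12, h13] at h11
  exact h11

theorem gap_int {n W d : ℕ} (hn : 10 ≤ n)
    (hgap : (W : ℝ) + 1 - 3 / √(n : ℝ) ≤ √(n : ℝ) * d) : n * (W + 1) ^ 2 ≤ (n * d + 3) ^ 2 := by
  have hnR : (10 : ℝ) ≤ n := by exact_mod_cast hn
  obtain ⟨s, hsdef⟩ : ∃ s, s = √(n : ℝ) := ⟨_, rfl⟩
  rw [← hsdef] at hgap
  have hs : s * s = n := by rw [hsdef]; exact Real.mul_self_sqrt (by linarith)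
  have hs0 : 0 < s := by rw [hsdef]; exact Real.sqrt_pos.2 (by linarith)
  have h3s : s * (3 / s) = 3 := by field_simp
  have hg1 : s * ((W + 1 : ℕ) : ℝ) ≤ ((n * d + 3 : ℕ) : ℝ) := by
    have h1 := mul_le_mul_of_nonneg_left hgap hs0.le
    have e : s * ((W : ℝ) + 1 - 3 / s) = s * ((W + 1 : ℕ) : ℝ) - s * (3 / s) := by
      push_cast; ring
    rw [e, h3s, ← mul_assoc, hs] at h1
    push_cast at h1 ⊢
    linarith
  have h1 := mul_self_le_mul_self (by positivity) hg1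
  have h2 : ((n * (W + 1) ^ 2 : ℕ) : ℝ) ≤ (((n * d + 3) ^ 2 : ℕ) : ℝ) := by
    have e1 : ((n * (W + 1) ^ 2 : ℕ) : ℝ) = s * ((W + 1 : ℕ) : ℝ) * (s * ((W + 1 : ℕ) : ℝ)) := by
      rw [Nat.cast_mul, Nat.cast_pow, ← hs]; ring
    have e2 : (((n * d + 3) ^ 2 : ℕ) : ℝ) = ((n * d + 3 : ℕ) : ℝ) * ((n * d + 3 : ℕ) : ℝ) := by
      rw [Nat.cast_pow]; ring
    rw [e1, e2]; exact h1
  exact_mod_cast h2

theorem d_eq {n Q W d D : ℕ} (h1 : d ^ 2 ≤ Q) (h2 : Q < (D + 1) ^ 2)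
    (h3 : n * (W + 1) ^ 2 ≤ (n * d + 3) ^ 2) (h4 : (n * (D - 1) + 3) ^ 2 < n * (W + 1) ^ 2) :
    d = D := by
  refine le_antisymm ?_ ?_
  · by_contra hcon
    have : (D + 1) ^ 2 ≤ d ^ 2 := Nat.pow_le_pow_left (by omega) 2
    omega
  · by_contra hcon
    have : (n * d + 3) ^ 2 ≤ (n * (D - 1) + 3) ^ 2 :=
      Nat.pow_le_pow_left (Nat.add_le_add_right (Nat.mul_le_mul_left _ (by omega)) 3) 2
    omega

theorem near_num {n k a d : ℕ} (hn : 10 ≤ n) (hk : 1 ≤ k) (ha : a ≤ n)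
    (hd : d ^ 2 ≤ n * k ^ 2 + (2 * k + 1) * a)
    (hgap : ((n * k + a : ℕ) : ℝ) + 1 - 3 / √(n : ℝ) ≤ √(n : ℝ) * d) : okN n k a := by
  by_contra hok
  have hnR : (10 : ℝ) ≤ n := by exact_mod_cast hn
  obtain ⟨s, hsdef⟩ : ∃ s, s = √(n : ℝ) := ⟨_, rfl⟩
  rw [← hsdef] at hgap
  have hs : s * s = n := by rw [hsdef]; exact Real.mul_self_sqrt (by linarith)
  have hs0 : 0 ≤ s := by rw [hsdef]; exact Real.sqrt_nonneg _
  have hs3 : 3.162 < s := by
    by_contra hcon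
    rw [not_lt] at hcon
    have := mul_self_le_mul_self hs0 hcon
    norm_num at this
    linarith
  have hspos : 0 < s := by linarith
  have hg2 : n * (n * k + a + 1) ^ 2 ≤ (n * d + 3) ^ 2 := gap_int hn (by rw [← hsdef]; exact hgap)
  have hg3 : ∀ D : ℕ, d ≤ D → n * (n * k + a + 1) ^ 2 ≤ (n * D + 3) ^ 2 := fun D hD =>
    hg2.trans (Nat.pow_le_pow_left (Nat.add_le_add_right (Nat.mul_le_mul_left _ hD) 3) 2)
  have hD : d ≤ Nat.sqrt (n * k ^ 2 + (2 * k + 1) * a) := Nat.le_sqrt'.2 hd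
  -- the real inequality
  have hk' : (0 : ℝ) < k := by exact_mod_cast hk
  have hΔ : 8 * (s - 3) * k < s ^ 3 := by
    refine bound_main (n := (n : ℝ)) (a := (a : ℝ)) (d := (d : ℝ)) hs (by linarith) hk'
      (Nat.cast_nonneg a) ?_ ?_
    · have : ((d ^ 2 : ℕ) : ℝ) ≤ ((n * k ^ 2 + (2 * k + 1) * a : ℕ) : ℝ) := by exact_mod_cast hd
      push_cast at this
      exact this
    · push_cast at hgap
      exact hgap
  -- `k` is large
  have hkl : s ^ 2 - 6 * s + 10 < k := by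
    by_contra hcon
    rw [not_lt] at hcon
    apply hok
    left
    have hsn : s ^ 2 = n := by rw [sq]; exact hs
    have h1 : 6 * s ≤ n + 10 - k := by linarith
    have hk1 : (k : ℝ) ≤ n + 10 := by linarith
    have hk2 : k ≤ n + 10 := by exact_mod_cast hk1
    refine ⟨hk2, ?_⟩
    have h2 := mul_self_le_mul_self (by positivity) h1
    have h3 : ((36 * n : ℕ) : ℝ) ≤ (((n + 10 - k) ^ 2 : ℕ) : ℝ) := by
      have e1 : ((36 * n : ℕ) : ℝ) = 6 * s * (6 * s) := by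
        push_cast; rw [← hs]; ring
      have e2 : (((n + 10 - k) ^ 2 : ℕ) : ℝ) = ((n : ℝ) + 10 - k) * ((n : ℝ) + 10 - k) := by
        rw [Nat.cast_pow, Nat.cast_sub hk2]; push_cast; ring
      rw [e1, e2]; exact h2
    exact_mod_cast h3
  have hn34 : n < 34 := by
    by_contra hcon
    rw [not_lt] at hcon
    have h34 : (34 : ℝ) ≤ n := by exact_mod_cast hcon
    have hs5 : 5.83 < s := by
      by_contra hcon2
      rw [not_lt] at hcon2
      have := mul_self_le_mul_self hs0 hcon2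
      norm_num at this
      linarith
    exact bound_n hs5 hkl hΔ
  have hk12 : k < 25 := by
    have h34 : (n : ℝ) < 34 := by exact_mod_cast hn34
    have hs6 : s < 5.84 := by
      by_contra hcon2
      rw [not_lt] at hcon2
      have := mul_self_le_mul_self (by norm_num) hcon2
      norm_num at this
      linarith
    have h3 : (k : ℝ) < 25 := bound_k hs3 hs6 hΔ
    exact_mod_cast h3
  have h1 := chk_all n (by rw [Finset.mem_Ico]; omega) k (by rw [Finset.mem_Ico]; omega) a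
    (by rw [Finset.mem_range]; omega)
  unfold chk at h1
  rw [Bool.or_eq_true, decide_eq_true_eq, decide_eq_true_eq] at h1
  rcases h1 with h1 | h1
  · exact absurd (hg3 _ hD) (not_le.2 h1)
  · exact hok h1

end Pool.Agent.TH718.UG
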