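import Pool.Agent.TH603.Sur.Forms
import Pool.Agent.H932R3.Empty
import Pool.Agent.H248R5.Defs

/-! From emptiness to general points of the plane. -/

namespace Pool.Agent.TH718.UG

open Finset Pool.Agent.TH176.Nag Pool.Agent.TH603.Sur Pool.Agent.H932R2 Pool.Agent.H932R3

/-- for general points there is no form of degree `d` with multiplicities at least `w i`, and the
expected dimension of the space of these forms is zero -/
def Van {n : ℕ} (w : Fin n → ℕ) (d : ℕ) : Prop :=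
  ∃ F : MvPolynomial (Fin n × Fin 2) ℚ, F ≠ 0 ∧ ∀ P : Fin n → Fin 2 → ℂ,
    MvPolynomial.aeval (fun ij : Fin n × Fin 2 => P ij.1 ij.2) F ≠ 0 →
    H248R5.forms w P d = ⊥ ∧ (d + 2).choose 2 ≤ ∑ i, (w i + 1).choose 2

theorem le_of_expDim {n : ℕ} {w : Fin n → ℕ} {d : ℕ} {P : Fin n → Fin 2 → ℂ}
    (h : Module.finrank ℂ ↥(H248R5.forms w P d) = (d + 2).choose 2 - ∑ i, (w i + 1).choose 2)
    (h0 : H248R5.forms w P d = ⊥) : (d + 2).choose 2 ≤ ∑ i, (w i + 1).choose 2 := by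
  rw [h0, finrank_bot] at h
  exact Nat.sub_eq_zero_iff_le.1 h.symm

theorem Van_of_Emp {n d : ℕ} {w : Fin n → ℕ}
    (h : Emp w {m : ℤ × ℤ | 0 ≤ m.1 ∧ 0 ≤ m.2 ∧ m.1 + m.2 ≤ (d : ℤ)}) : Van w d := by
  obtain ⟨F, hF, hF'⟩ := Emp_open (TZ_finite d) (fun m hm => ⟨hm.1, hm.2.1⟩) h
  obtain ⟨F2, hF2, hF2'⟩ := full_open (e := d) h
  refine ⟨F * F2, mul_ne_zero hF hF2, fun P hP => ?_⟩
  rw [map_mul] at hP
  obtain ⟨h1, h2⟩ := hF' _ (left_ne_zero_of_mul hP)
  have hE := hF2' P (right_ne_zero_of_mul hP) d le_rfl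
  have hcast : castS (Tfin d) ⊆ TZ d := by
    rintro m ⟨p, hp, rfl⟩
    have : p ∈ Tset d := by rw [← coe_Tfin]; exact hp
    have h3 : p.1 + p.2 ≤ d := this
    exact ⟨by simp, by simp, by simp only; omega⟩
  have h3 : RkI (vIdeal 1 w (fun a => P a 0) (fun a => Polynomial.C (P a 1))) (Tset d)
      (Tfin d).card :=
    RkI_of_LM (fun i => h1 (i, 0)) (fun i => h1 (i, 1)) (by rw [coe_Tfin]) fun f hf hL =>
      h2 f (hf.trans hcast) hL
  have h4 : NoForm (ptJ P w) d := NoForm.of_rk h3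
  have h5 : H248R5.forms w P d = ⊥ := by
    rw [eq_bot_iff]
    intro G hG
    rw [Submodule.mem_bot]
    unfold H248R5.forms at hG
    rw [Submodule.mem_inf, Submodule.restrictScalars_mem, Ideal.mem_iInf] at hG
    refine h4 G hG.1 ?_
    unfold ptJ vIdeal
    rw [Ideal.mem_iInf]
    intro i
    exact deh_mem_of_mem (hG.2 i)
  exact ⟨h5, le_of_expDim hE h5⟩

/-- more points -/
theorem Van_sub {N t d : ℕ} {w : Fin N → ℕ} (g : Fin t → Fin N) (hg : Function.Injective g)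
    (h : Van (fun j => w (g j)) d) : Van w d := by
  classical
  obtain ⟨F, hF, hF'⟩ := h
  have hinj : Function.Injective (fun ij : Fin t × Fin 2 => ((g ij.1, ij.2) : Fin N × Fin 2)) := by
    rintro ⟨a, b⟩ ⟨c, e⟩ h
    simp only [Prod.mk.injEq] at h
    exact Prod.ext (hg h.1) h.2
  refine ⟨MvPolynomial.rename (fun ij : Fin t × Fin 2 => ((g ij.1, ij.2) : Fin N × Fin 2)) F,
    fun h0 => hF (MvPolynomial.rename_injective _ hinj (h0.trans (map_zero _).symm)),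
    fun P hP => ?_⟩
  rw [MvPolynomial.aeval_rename] at hP
  obtain ⟨h1, h2⟩ := hF' (fun j => P (g j)) hP
  refine ⟨?_, h2.trans ?_⟩
  · rw [eq_bot_iff, ← h1]
    intro G hG
    unfold H248R5.forms at hG ⊢
    rw [Submodule.mem_inf, Submodule.restrictScalars_mem, Ideal.mem_iInf] at hG ⊢
    exact ⟨hG.1, fun j => hG.2 (g j)⟩
  · calc ∑ j, (w (g j) + 1).choose 2 = ∑ i ∈ univ.map ⟨g, hg⟩, (w i + 1).choose 2 := by
          rw [sum_map]; rfl
      _ ≤ ∑ i, (w i + 1).choose 2 := sum_le_sum_of_subset (subset_univ _)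

end Pool.Agent.TH718.UG
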