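import Pool.Agent.TH718.UG.Small
import Pool.Agent.TH718.UG.Num
import Pool.Agent.TH718.UG.Plane
import Pool.Agent.Results.MP_b180eb_ag.NearUniform

/-! Near-uniform multiplicities. -/

namespace Pool.Agent.TH718.UG

open Finset Pool.Agent.TH176.Nag Pool.Agent.H248R5

theorem sum_comp {n k a : ℕ} {w : Fin n → ℕ} (hw : ∀ i, w i = k ∨ w i = k + 1)
    (ha : (univ.filter fun i => w i = k + 1).card = a) (f : ℕ → ℕ) :
    ∑ i, f (w i) = a * f (k + 1) + (n - a) * f k := by
  classical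
  have h1 : ∀ i, f (w i) = (if w i = k + 1 then f (k + 1) else f k) := by
    intro i
    rcases hw i with h | h
    · rw [if_neg (by omega), h]
    · rw [if_pos h, h]
  rw [sum_congr rfl fun i _ => h1 i, sum_ite, sum_const, sum_const, smul_eq_mul, smul_eq_mul, ha]
  have h2 : (univ.filter fun i => ¬ w i = k + 1).card = n - a := by
    have h3 := Finset.card_filter_add_card_filter_not (s := (univ : Finset (Fin n)))
      (fun i => w i = k + 1)
    rw [ha, card_univ, Fintype.card_fin] at h3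
    omega
  rw [h2]

/-- near-uniform multiplicities -/
theorem Van_near {n : ℕ} (hn : 10 ≤ n) {d : ℕ} (hd : 0 < d) (hdiv : 12 ≤ n ∨ ¬ 3 ∣ d) {w : Fin n → ℕ}
    {k : ℕ} (hk : 1 ≤ k) (hw : ∀ i, w i = k ∨ w i = k + 1) (hpos : d ^ 2 ≤ ∑ i, w i ^ 2)
    (hex : ¬ (n = 10 ∧ k = 1 ∧ (d = 4 ∨ d = 5) ∧ ∑ i, w i ^ 2 = d ^ 2)) : Van w d := by
  classical
  by_cases hgap' : √(n : ℝ) * d < ((∑ i, w i : ℕ) : ℝ) + 1 - 3 / √(n : ℝ)
  · exact Van_of_Emp (Emp_gap' hn (Fintype.card_fin n) hd hdiv hgap')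
  have hgap : ((∑ i, w i : ℕ) : ℝ) + 1 - 3 / √(n : ℝ) ≤ √(n : ℝ) * d := not_lt.1 hgap'
  obtain ⟨a, ha⟩ : ∃ a, (univ.filter fun i => w i = k + 1).card = a := ⟨_, rfl⟩
  have han : a ≤ n := by
    rw [← ha]
    exact (card_filter_le _ _).trans (by simp)
  obtain ⟨b, hb⟩ := Nat.exists_eq_add_of_le han
  have hnb : n - a = b := by omega
  have hsq : ∑ i, w i ^ 2 = n * k ^ 2 + (2 * k + 1) * a := by
    rw [sum_comp hw ha (fun x => x ^ 2), hnb, hb]; ring
  have hs1 : ∑ i, w i = n * k + a := by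
    rw [sum_comp hw ha (fun x => x), hnb, hb]; ring
  have hs2 : ∑ i, w i * (w i + 1) = a * ((k + 1) * (k + 2)) + (n - a) * (k * (k + 1)) := by
    rw [sum_comp hw ha (fun x => x * (x + 1))]
  have hstart : (((k + 1 : ℕ) : ℝ) ≤ n - 6 * Real.sqrt n + 11 ∨
      ∃ δ κ : ℕ, 2 ≤ δ ∧ n = δ ^ 2 + 2 * κ ∧
        (κ = 0 ∨ ∑ i, w i * (w i + 1) < δ ^ 2 * (δ ^ 2 + 3) * (δ ^ 2 + 4))) → Van w d := by
    intro hst
    obtain ⟨F0, hF0, hF0'⟩ := Results.MP_b180eb_ag.NearUniform.result n (by omega) k hk w hw hst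
    obtain ⟨F1, hF1, hF1'⟩ := H932R3.near_points (L := ℂ) (by omega) hk hw
      (H932R3.near_cond (by omega) hw hst)
    refine ⟨F0 * F1, mul_ne_zero hF0 hF1, fun P hP => ?_⟩
    rw [map_mul] at hP
    have h0 : forms w P d = ⊥ := by
      rw [eq_bot_iff]
      intro G hG
      rw [Submodule.mem_bot]
      by_contra hG0
      have h1 := (hF0' P (left_ne_zero_of_mul hP) d G hG0 hG).2
      have e : Results.MP_b180eb_ag.NearUniform.selfInt
          (Results.MP_b180eb_ag.NearUniform.cls d w) =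
          ((d ^ 2 : ℕ) : ℤ) - ((∑ i, w i ^ 2 : ℕ) : ℤ) := by
        unfold Results.MP_b180eb_ag.NearUniform.selfInt Results.MP_b180eb_ag.NearUniform.cls
        push_cast
        rfl
      rw [e] at h1
      rcases h1 with h1 | ⟨h1, -, h2, h3, h4, -⟩
      · omega
      · exact hex ⟨h2, h3, h4, by omega⟩
    exact ⟨h0, le_of_expDim (hF1' P (right_ne_zero_of_mul hP) d) h0⟩
  rw [hs1] at hgap
  rw [hsq] at hpos
  have hint := gap_int hn hgap
  rcases near_num hn hk han hpos hgap with ⟨h1, h2⟩ | ⟨δ, hδ, h1, h2, h3⟩ | ⟨h1, h2, h3⟩ |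
    ⟨h1, h2, h3⟩ | ⟨h1, h2, h3⟩ | ⟨h1, h2, h3⟩ | ⟨h1, h2, h3⟩
  · apply hstart
    left
    have h3 : ((36 * n : ℕ) : ℝ) ≤ (((n + 10 - k) ^ 2 : ℕ) : ℝ) := by exact_mod_cast h2
    rw [Nat.cast_pow, Nat.cast_sub h1] at h3
    push_cast at h3 ⊢
    have hs : √(n : ℝ) * √(n : ℝ) = n := Real.mul_self_sqrt (Nat.cast_nonneg n)
    have h4 : (6 * √(n : ℝ)) ^ 2 ≤ ((n : ℝ) + 10 - k) ^ 2 := by
      rw [mul_pow, sq (√(n : ℝ)), hs]; linarith
    have h5 : (k : ℝ) ≤ n + 10 := by exact_mod_cast h1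
    have h6 := abs_le_of_sq_le_sq h4 (by linarith)
    linarith [h6, le_abs_self (6 * √(n : ℝ))]
  · apply hstart
    right
    rw [mem_Icc] at hδ
    refine ⟨δ, (n - δ ^ 2) / 2, hδ.1, by omega, ?_⟩
    rcases h3 with h3 | h3
    · left; omega
    · right; rw [hs2]; exact h3
  · subst h1 h2 h3
    have hd : d = 22 := d_eq hpos (by norm_num) hint (by norm_num)
    subst hd
    exact Van_of_Emp (Emp_small (n := 12) (k := 6) (U := 77) (J := 8) hn
      (not_sq (m := 3) (by norm_num) (by norm_num)) (by norm_num) (by norm_num) hw ha rows_a)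
  · subst h1 h2 h3
    have hd : d = 14 := d_eq hpos (by norm_num) hint (by norm_num)
    subst hd
    exact Van_of_Emp (Emp_small (n := 14) (k := 3) (U := 53) (J := 5) hn
      (not_sq (m := 3) (by norm_num) (by norm_num)) (by norm_num) (by norm_num) hw ha rows_b)
  · subst h1 h2 h3
    have hd : d = 14 := d_eq hpos (by norm_num) hint (by norm_num)
    subst hd
    exact Van_of_Emp (Emp_small (n := 10) (k := 4) (U := 45) (J := 5) hn
      (not_sq (m := 3) (by norm_num) (by norm_num)) (by norm_num) (by norm_num) hw ha rows_c)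
  · subst h1 h2 h3
    have hd : d = 25 := d_eq hpos (by norm_num) hint (by norm_num)
    subst hd
    exact Van_of_Emp (Emp_small (n := 10) (k := 7) (U := 80) (J := 9) hn
      (not_sq (m := 3) (by norm_num) (by norm_num)) (by norm_num) (by norm_num) hw ha rows_d)
  · subst h1 h2 h3
    have hd : d = 62 := d_eq hpos (by norm_num) hint (by norm_num)
    subst hd
    exact Van_of_Emp (Emp_small (n := 10) (k := 19) (U := 197) (J := 21) hn
      (not_sq (m := 3) (by norm_num) (by norm_num)) (by norm_num) (by norm_num) hw ha rows_e)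

end Pool.Agent.TH718.UG
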