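import Pool.Agent.TH718.UG.EmpG

/-! The five single systems. -/

namespace Pool.Agent.TH718.UG

open Finset Pool.Agent.TH176.Nag

theorem rows_a : ∀ j ∈ range 8, (rowset 12 22 77 j).card ≤ 4 * (7 - j) + 8 * (6 - j) := by
  decide +kernel

theorem rows_b : ∀ j ∈ range 5, (rowset 14 14 53 j).card ≤ 10 * (4 - j) + 4 * (3 - j) := by
  decide +kernel

theorem rows_c : ∀ j ∈ range 5, (rowset 10 14 45 j).card ≤ 4 * (5 - j) + 6 * (4 - j) := by
  decide +kernel

theorem rows_d : ∀ j ∈ range 9, (rowset 10 25 80 j).card ≤ 9 * (8 - j) + 1 * (7 - j) := by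
  decide +kernel

theorem rows_e : ∀ j ∈ range 21, (rowset 10 62 197 j).card ≤ 6 * (20 - j) + 4 * (19 - j) := by
  decide +kernel

theorem sum_near {n k a j : ℕ} {w : Fin n → ℕ} (hw : ∀ i, w i = k ∨ w i = k + 1)
    (ha : (univ.filter fun i => w i = k + 1).card = a) :
    ∑ i, (w i - j) = a * (k + 1 - j) + (n - a) * (k - j) := by
  classical
  have h1 : ∀ i, w i - j = (if w i = k + 1 then (k + 1 - j) else (k - j)) := by
    intro i
    rcases hw i with h | h
    · rw [if_neg (by omega), h]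
    · rw [if_pos h, h]
  rw [sum_congr rfl fun i _ => h1 i, sum_ite, sum_const, sum_const, smul_eq_mul, smul_eq_mul, ha]
  have h2 : (univ.filter fun i => ¬ w i = k + 1).card = n - a := by
    have h3 := Finset.card_filter_add_card_filter_not (s := (univ : Finset (Fin n)))
      (fun i => w i = k + 1)
    rw [ha, card_univ, Fintype.card_fin] at h3
    omega
  rw [h2]

theorem Emp_small {n k a d U J : ℕ} {w : Fin n → ℕ} (hn : 10 ≤ n) (hsq : ¬ IsSquare n)
    (hU : n * d ^ 2 ≤ U ^ 2) (hJ : d < 3 * J) (hw : ∀ i, w i = k ∨ w i = k + 1)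
    (ha : (univ.filter fun i => w i = k + 1).card = a)
    (H : ∀ j ∈ range J, (rowset n d U j).card ≤ a * (k + 1 - j) + (n - a) * (k - j)) :
    Emp w {m : ℤ × ℤ | 0 ≤ m.1 ∧ 0 ≤ m.2 ∧ m.1 + m.2 ≤ (d : ℤ)} := by
  refine Emp_check hn hsq hU fun j hj => ?_
  rw [sum_near hw ha]
  exact H j (by rw [mem_range]; omega)

theorem not_sq {n m : ℕ} (h1 : m * m < n) (h2 : n < (m + 1) * (m + 1)) : ¬ IsSquare n := by
  rintro ⟨r, rfl⟩
  have h3 : m < r := by
    by_contra hcon
    rw [not_lt] at hcon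
    have := Nat.mul_le_mul hcon hcon
    omega
  have h4 : r < m + 1 := by
    by_contra hcon
    rw [not_lt] at hcon
    have := Nat.mul_le_mul hcon hcon
    omega
  omega

end Pool.Agent.TH718.UG
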